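import Pool.Agent.UWW.Word

/-! # Right angled Coxeter groups: the group, length, descents

(problem MP_fc0f29_gt, negative answer; helper17)

`W c` is the right angled Coxeter group; `lift`: universal property. `pr l` is the product of the letters of `l`.
`exists_red`, `red_unique`: every element is the product of a reduced word, unique up to exchanging adjacent commuting letters. -/

namespace UWW

universe u v

variable {α : Type u} (c : α → α → Prop)

/-- the relations -/
def rels : Set (FreeGroup α) :=
  {x | (∃ i, x = FreeGroup.of i * FreeGroup.of i) ∨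
    ∃ i j, c i j ∧ x = FreeGroup.of i * FreeGroup.of j * (FreeGroup.of j * FreeGroup.of i)⁻¹}

/-- the right angled Coxeter group -/
def W : Type u := PresentedGroup (rels c)

instance : Group (W c) := inferInstanceAs (Group (PresentedGroup (rels c)))

/-- the generators -/
def s (i : α) : W c := PresentedGroup.of i

theorem s_sq (i : α) : s c i * s c i = 1 := by
  have h : PresentedGroup.mk (rels c) (FreeGroup.of i * FreeGroup.of i) = 1 :=
    PresentedGroup.one_of_mem (Or.inl ⟨i, rfl⟩)
  rw [map_mul] at h
  exact h

theorem s_inv (i : α) : (s c i)⁻¹ = s c i :=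
  inv_eq_of_mul_eq_one_left (s_sq c i)

variable {c}

theorem s_comm {i j : α} (h : c i j) : s c i * s c j = s c j * s c i := by
  have h1 : PresentedGroup.mk (rels c) (FreeGroup.of i * FreeGroup.of j *
      (FreeGroup.of j * FreeGroup.of i)⁻¹) = 1 :=
    PresentedGroup.one_of_mem (Or.inr ⟨i, j, h, rfl⟩)
  rw [map_mul, map_inv, map_mul, map_mul, mul_inv_eq_one] at h1
  exact h1

theorem s_mul_s_mul (i : α) (w : W c) : s c i * (s c i * w) = w := by
  rw [← mul_assoc, s_sq, one_mul]

theorem mul_s_mul_s (i : α) (w : W c) : w * s c i * s c i = w := by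
  rw [mul_assoc, s_sq, mul_one]

/-- universal property -/
def lift {G : Type v} [Group G] (f : α → G) (h1 : ∀ i, f i * f i = 1)
    (h2 : ∀ i j, c i j → f i * f j = f j * f i) : W c →* G :=
  PresentedGroup.toGroup (f := f) (rels := rels c) (by
    rintro r (⟨i, rfl⟩ | ⟨i, j, h, rfl⟩)
    · rw [map_mul, FreeGroup.lift_apply_of, h1]
    · rw [map_mul, map_inv, map_mul, map_mul, FreeGroup.lift_apply_of, FreeGroup.lift_apply_of,
        h2 i j h, mul_inv_cancel])

@[simp] theorem lift_s {G : Type v} [Group G] (f : α → G) (h1 : ∀ i, f i * f i = 1)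
    (h2 : ∀ i j, c i j → f i * f j = f j * f i) (i : α) : lift f h1 h2 (s c i) = f i :=
  PresentedGroup.toGroup.of _

variable (c)

/-- the product of a word -/
def pr (l : List α) : W c := (l.map (s c)).prod

@[simp] theorem pr_nil : pr c [] = 1 := rfl

@[simp] theorem pr_cons (a : α) (l : List α) : pr c (a :: l) = s c a * pr c l := by
  simp [pr]

theorem pr_append (l m : List α) : pr c (l ++ m) = pr c l * pr c m := by
  simp [pr]

theorem pr_reverse (l : List α) : pr c l.reverse = (pr c l)⁻¹ := by
  induction l with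
  | nil => simp
  | cons a l ih => rw [List.reverse_cons, pr_append, ih, pr_cons, pr_cons, pr_nil, mul_one, mul_inv_rev, s_inv]

variable {c}

theorem pr_sw {l l' : List α} (h : Sw c l l') : pr c l = pr c l' := by
  induction h with
  | refl l => rfl
  | swap a b l hab =>
    rw [pr_cons, pr_cons, pr_cons, pr_cons, ← mul_assoc, s_comm hab, mul_assoc]
  | cons a _ ih => rw [pr_cons, pr_cons, ih]
  | trans _ _ ih1 ih2 => exact ih1.trans ih2

variable (c) in
/-- the quotient map -/
def mkW : FreeGroup α →* W c := PresentedGroup.mk (rels c)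

theorem mkW_of (i : α) : mkW c (FreeGroup.of i) = s c i := rfl

theorem mkW_surjective : Function.Surjective (mkW c) := PresentedGroup.mk_surjective (rels c)

/-- induction on elements: multiplication by generators from the left -/
theorem W.ind {P : W c → Prop} (h1 : P 1) (h2 : ∀ i w, P w → P (s c i * w)) (w : W c) : P w := by
  have key : ∀ x : FreeGroup α, ∀ w, P w → P (mkW c x * w) := by
    intro x
    refine FreeGroup.induction_on x ?_ ?_ ?_ ?_
    · intro w hw
      rw [map_one, one_mul]
      exact hw
    · intro i w hw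
      exact h2 i w hw
    · intro i _ w hw
      rw [map_inv, mkW_of, s_inv]
      exact h2 i w hw
    · intro x y hx hy w hw
      rw [map_mul, mul_assoc]
      exact hx _ (hy _ hw)
  obtain ⟨x, rfl⟩ := mkW_surjective w
  have := key x 1 h1
  rwa [mul_one] at this

theorem exists_pr (w : W c) : ∃ l, pr c l = w := by
  induction w using W.ind with
  | h1 => exact ⟨[], rfl⟩
  | h2 i w ih =>
    obtain ⟨l, rfl⟩ := ih
    exact ⟨i :: l, pr_cons c i l⟩

section

variable [DecidableEq α] [DecidableRel c] [hC : Com c]

theorem pr_act (k : α) (l : List α) : pr c (act c k l) = s c k * pr c l := by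
  rcases h : rem c k l with _ | m
  · have h1 : act c k l = k :: l := by simp [act, h]
    rw [h1, pr_cons]
  · have h1 : act c k l = m := by simp [act, h]
    rw [h1, pr_sw (rem_sw h), pr_cons, s_mul_s_mul]

variable (c) in
/-- reduced words up to equivalence -/
def stX : Setoid {l : List α // Red c l} where
  r x y := Sw c x.1 y.1
  iseqv := ⟨fun x => Sw.refl x.1, fun h => h.symm, fun h h' => Sw.trans h h'⟩

variable (c) in
/-- reduced words up to equivalence -/
def X : Type u := Quotient (stX c)

/-- the action of a letter -/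
def actX (k : α) : X c → X c :=
  Quotient.map' (s₁ := stX c) (s₂ := stX c) (fun x => ⟨act c k x.1, act_red x.2⟩)
    fun _ _ h => act_congr h k

theorem actX_actX (k : α) (x : X c) : actX k (actX k x) = x := by
  induction x using Quotient.inductionOn with
  | h x => exact Quotient.sound (s := stX c) (act_act x.2)

theorem actX_comm {i j : α} (h : c i j) (x : X c) : actX i (actX j x) = actX j (actX i x) := by
  induction x using Quotient.inductionOn with
  | h x => exact Quotient.sound (s := stX c) (act_comm h)

/-- the action of a letter as a permutation -/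
def permX (k : α) : Equiv.Perm (X c) := ⟨actX k, actX k, actX_actX k, actX_actX k⟩

/-- the action of the group -/
def homX : W c →* Equiv.Perm (X c) :=
  lift permX (fun i => Equiv.ext fun x => actX_actX i x)
    fun _ _ h => Equiv.ext fun x => actX_comm h x

/-- the empty word -/
def nilX : X c := Quotient.mk (stX c) ⟨[], trivial⟩

theorem homX_pr {l : List α} (hl : Red c l) :
    homX (pr c l) nilX = Quotient.mk (stX c) ⟨l, hl⟩ := by
  induction l with
  | nil => rfl
  | cons k l ih =>
    have hl' : Red c l ∧ rem c k l = none := hl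
    rw [pr_cons, map_mul, Equiv.Perm.mul_apply, ih hl'.1, homX, lift_s]
    refine Quotient.sound (s := stX c) ?_
    have h1 : act c k l = k :: l := by simp [act, hl'.2]
    change Sw c (act c k l) (k :: l)
    rw [h1]
    exact Sw.refl _

/-- the product of a class -/
def prX : X c → W c :=
  Quotient.lift (s := stX c) (fun x => pr c x.1) fun _ _ h => pr_sw h

theorem prX_homX (w : W c) (x : X c) : prX (homX w x) = w * prX x := by
  induction w using W.ind generalizing x with
  | h1 => rw [map_one, one_mul]; rfl
  | h2 i w ih =>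
    rw [map_mul, Equiv.Perm.mul_apply, mul_assoc, ← ih]
    generalize homX w x = y
    rw [homX, lift_s]
    induction y using Quotient.inductionOn with
    | h y => exact pr_act i y.1

theorem exists_red (w : W c) : ∃ l, Red c l ∧ pr c l = w := by
  have h := prX_homX w nilX
  generalize homX w nilX = y at h
  induction y using Quotient.inductionOn with
  | h y =>
    refine ⟨y.1, y.2, ?_⟩
    have h1 : prX (nilX : X c) = 1 := rfl
    rw [h1, mul_one] at h
    exact h

theorem red_unique {l l' : List α} (h : Red c l) (h' : Red c l') (he : pr c l = pr c l') :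
    Sw c l l' := by
  have h1 := homX_pr h
  rw [he, homX_pr h'] at h1
  exact (Quotient.exact (s := stX c) h1).symm

/-! ### Length -/

/-- the length -/
noncomputable def len (w : W c) : ℕ := (exists_red w).choose.length

theorem len_pr {l : List α} (h : Red c l) : len (pr c l) = l.length := by
  have h1 := (exists_red (pr c l)).choose_spec
  exact (red_unique h1.1 h h1.2).length

@[simp] theorem len_one : len (1 : W c) = 0 := len_pr (c := c) (l := []) trivial

theorem len_eq_zero {w : W c} : len w = 0 ↔ w = 1 := by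
  constructor
  · intro h
    obtain ⟨l, hl, rfl⟩ := exists_red w
    rw [len_pr hl, List.length_eq_zero_iff] at h
    rw [h]
    rfl
  · rintro rfl
    exact len_one

/-- left descents -/
def Ld (w : W c) : Set α := {k | len (s c k * w) < len w}

/-- right descents -/
def Rd (w : W c) : Set α := {k | len (w * s c k) < len w}

theorem mem_Ld_iff {l : List α} (h : Red c l) (k : α) : k ∈ Ld (pr c l) ↔ rem c k l ≠ none := by
  have h1 : len (s c k * pr c l) = (act c k l).length := by
    rw [← pr_act, len_pr (act_red h)]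
  change len (s c k * pr c l) < len (pr c l) ↔ _
  rw [h1, len_pr h]
  rcases act_length (c := c) k l with ⟨h2, h3⟩ | ⟨h2, h3⟩
  · rw [h3]
    simp [h2]
  · constructor
    · intro _
      exact h2
    · intro _
      omega

theorem len_s_mul (k : α) (w : W c) :
    (k ∉ Ld w ∧ len (s c k * w) = len w + 1) ∨ (k ∈ Ld w ∧ len (s c k * w) + 1 = len w) := by
  obtain ⟨l, hl, rfl⟩ := exists_red w
  have h1 : len (s c k * pr c l) = (act c k l).length := by
    rw [← pr_act, len_pr (act_red hl)]
  rw [h1, mem_Ld_iff hl, len_pr hl]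
  rcases act_length (c := c) k l with ⟨h2, h3⟩ | ⟨h2, h3⟩
  · exact Or.inl ⟨fun h => h h2, h3⟩
  · exact Or.inr ⟨h2, h3⟩

theorem len_pr_le (l : List α) : len (pr c l) ≤ l.length := by
  induction l with
  | nil => simp
  | cons a l ih =>
    rw [pr_cons, List.length_cons]
    rcases len_s_mul a (pr c l) with ⟨-, h⟩ | ⟨-, h⟩ <;> omega

theorem red_iff {l : List α} : Red c l ↔ len (pr c l) = l.length := by
  refine ⟨len_pr, fun h => ?_⟩
  induction l with
  | nil => trivial
  | cons a l ih =>
    rw [pr_cons, List.length_cons] at h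
    have h1 := len_pr_le (c := c) l
    rcases len_s_mul a (pr c l) with ⟨h2, h3⟩ | ⟨-, h3⟩
    · have h4 : Red c l := ih (by omega)
      refine ⟨h4, ?_⟩
      by_contra h5
      exact h2 ((mem_Ld_iff h4 a).2 h5)
    · omega

@[simp] theorem len_inv (w : W c) : len w⁻¹ = len w := by
  have key : ∀ w : W c, len w⁻¹ ≤ len w := by
    intro w
    obtain ⟨l, hl, rfl⟩ := exists_red w
    rw [← pr_reverse, len_pr hl, ← List.length_reverse]
    exact len_pr_le _
  refine le_antisymm (key w) ?_
  have := key w⁻¹
  rwa [inv_inv] at this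

theorem red_reverse {l : List α} : Red c l.reverse ↔ Red c l := by
  rw [red_iff, red_iff, pr_reverse, len_inv, List.length_reverse]

theorem Rd_eq (w : W c) : Rd w = Ld w⁻¹ := by
  ext k
  change len (w * s c k) < len w ↔ len (s c k * w⁻¹) < len w⁻¹
  have h : len (s c k * w⁻¹) = len (w * s c k) := by
    rw [← len_inv (w * s c k), mul_inv_rev, s_inv]
  rw [h, len_inv]

theorem Ld_inv (w : W c) : Ld w⁻¹ = Rd w := (Rd_eq w).symm

theorem Rd_inv (w : W c) : Rd w⁻¹ = Ld w := by rw [Rd_eq, inv_inv]

theorem len_mul_s (w : W c) (k : α) :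
    (k ∉ Rd w ∧ len (w * s c k) = len w + 1) ∨ (k ∈ Rd w ∧ len (w * s c k) + 1 = len w) := by
  have h : len (s c k * w⁻¹) = len (w * s c k) := by
    rw [← len_inv (w * s c k), mul_inv_rev, s_inv]
  rw [Rd_eq, ← h, ← len_inv w]
  exact len_s_mul k w⁻¹

theorem len_mul_le (g v : W c) : len (g * v) ≤ len g + len v := by
  obtain ⟨l, hl, rfl⟩ := exists_red g
  obtain ⟨m, hm, rfl⟩ := exists_red v
  rw [← pr_append, len_pr hl, len_pr hm, ← List.length_append]
  exact len_pr_le _

@[simp] theorem Ld_one : Ld (1 : W c) = ∅ := by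
  ext k
  simp [Ld]

@[simp] theorem Rd_one : Rd (1 : W c) = ∅ := by
  ext k
  simp [Rd]

/-- two left descents commute -/
theorem Ld_comm {w : W c} {i j : α} (hi : i ∈ Ld w) (hj : j ∈ Ld w) (h : i ≠ j) : c i j := by
  obtain ⟨l, hl, rfl⟩ := exists_red w
  rcases rem_two h ((mem_Ld_iff hl i).1 hi) ((mem_Ld_iff hl j).1 hj) with h1 | h1
  · exact h1
  · exact hC.symm _ _ h1

theorem Rd_comm {w : W c} {i j : α} (hi : i ∈ Rd w) (hj : j ∈ Rd w) (h : i ≠ j) : c i j := by
  rw [Rd_eq] at hi hj
  exact Ld_comm hi hj h

/-- (F2) -/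
theorem Ld_s_mul {w : W c} {j : α} (hj : j ∉ Ld w) (i : α) :
    i ∈ Ld (s c j * w) ↔ i = j ∨ (i ∈ Ld w ∧ c i j) := by
  obtain ⟨l, hl, rfl⟩ := exists_red w
  have h1 : rem c j l = none := by
    by_contra h
    exact hj ((mem_Ld_iff hl j).2 h)
  have h2 : Red c (j :: l) := ⟨hl, h1⟩
  rw [← pr_cons, mem_Ld_iff h2, mem_Ld_iff hl]
  by_cases hij : j = i
  · subst hij
    rw [rem_cons_self]
    simp
  · by_cases hc : c j i
    · rw [rem_cons_ne hij hc, Ne, Option.map_eq_none_iff]
      constructor
      · intro h
        exact Or.inr ⟨h, hC.symm _ _ hc⟩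
      · rintro (h | h)
        · exact absurd h.symm hij
        · exact h.1
    · rw [rem_cons_none hij hc]
      constructor
      · intro h
        exact absurd rfl h
      · rintro (h | h)
        · exact absurd h.symm hij
        · exact absurd (hC.symm _ _ h.2) hc

theorem Rd_mul_s {w : W c} {j : α} (hj : j ∉ Rd w) (i : α) :
    i ∈ Rd (w * s c j) ↔ i = j ∨ (i ∈ Rd w ∧ c i j) := by
  rw [Rd_eq, Rd_eq, mul_inv_rev, s_inv]
  rw [Rd_eq] at hj
  exact Ld_s_mul hj i

/-- (F3): the letters of `w` commute with `k` -/
theorem Ld_mul_s {w : W c} {j k : α} (hj : j ∉ Rd w) (hk : k ∉ Ld w)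
    (h : k ∈ Ld (w * s c j)) {l : List α} (hl : Red c l) (hw : pr c l = w) :
    k = j ∧ ∀ a ∈ l, a ≠ k ∧ c a k := by
  subst hw
  have h1 : Red c (l ++ [j]) := by
    rw [red_iff, pr_append, List.length_append, pr_cons, pr_nil, mul_one]
    rcases len_mul_s (pr c l) j with ⟨-, h2⟩ | ⟨h2, -⟩
    · rw [h2, len_pr hl]
      rfl
    · exact absurd h2 hj
  have h2 : pr c l * s c j = pr c (l ++ [j]) := by
    rw [pr_append, pr_cons, pr_nil, mul_one]
  rw [h2, mem_Ld_iff h1] at h
  have h3 : rem c k l = none := by
    by_contra h4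
    exact hk ((mem_Ld_iff hl k).2 h4)
  obtain ⟨h4, h5⟩ := (rem_append k l [j] h3).1 h
  refine ⟨?_, h4⟩
  by_contra h6
  have h7 : rem c k [j] = none := by
    by_cases hc : c j k
    · rw [rem_cons_ne (Ne.symm h6) hc]
      rfl
    · rw [rem_cons_none (Ne.symm h6) hc]
  exact h5 h7

theorem Ld_subset_mul_s {w : W c} {j : α} (hj : j ∉ Rd w) : Ld w ⊆ Ld (w * s c j) := by
  intro k hk
  obtain ⟨l, hl, rfl⟩ := exists_red w
  have h1 : Red c (l ++ [j]) := by
    rw [red_iff, pr_append, List.length_append, pr_cons, pr_nil, mul_one]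
    rcases len_mul_s (pr c l) j with ⟨-, h2⟩ | ⟨h2, -⟩
    · rw [h2, len_pr hl]
      rfl
    · exact absurd h2 hj
  have h2 : pr c l * s c j = pr c (l ++ [j]) := by
    rw [pr_append, pr_cons, pr_nil, mul_one]
  rw [h2, mem_Ld_iff h1]
  exact rem_append_some _ ((mem_Ld_iff hl k).1 hk)

/-- lengths add up iff nothing cancels -/
theorem len_mul_iff (g v : W c) : len (g * v) = len g + len v ↔ ∀ k, ¬ (k ∈ Rd g ∧ k ∈ Ld v) := by
  constructor
  · rintro h k ⟨h1, h2⟩
    have h3 : g * v = g * s c k * (s c k * v) := by
      rw [mul_assoc, s_mul_s_mul]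
    have h4 := len_mul_le (g * s c k) (s c k * v)
    rw [← h3, h] at h4
    change len (g * s c k) < len g at h1
    change len (s c k * v) < len v at h2
    omega
  · intro h
    obtain ⟨m, hm, rfl⟩ := exists_red v
    obtain ⟨l, hl, rfl⟩ := exists_red g
    rw [← pr_append, len_pr hl, len_pr hm, ← List.length_append]
    refine len_pr ?_
    induction l with
    | nil => exact hm
    | cons k l ih =>
      have hl' : Red c l ∧ rem c k l = none := hl
      have hk : k ∉ Ld (pr c l) := fun h1 => (mem_Ld_iff hl'.1 k).1 h1 hl'.2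
      -- right descents of the tail are right descents
      have hsub : Rd (pr c l) ⊆ Rd (pr c (k :: l)) := by
        rw [pr_cons, Rd_eq, Rd_eq, mul_inv_rev, s_inv]
        refine Ld_subset_mul_s ?_
        rw [Rd_inv]
        exact hk
      have hred : Red c (l ++ m) := ih hl'.1 fun j hj => h j ⟨hsub hj.1, hj.2⟩
      refine ⟨hred, ?_⟩
      by_contra h1
      obtain ⟨h2, h3⟩ := (rem_append k l m hl'.2).1 h1
      refine h k ⟨?_, (mem_Ld_iff hm k).2 h3⟩
      -- all letters of `l` commute with `k`
      have h4 : s c k * pr c l = pr c l * s c k := by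
        clear ih hred h1 hsub hk hl hl' h
        induction l with
        | nil => simp
        | cons a l ih =>
          have h5 := h2 a List.mem_cons_self
          rw [pr_cons, ← mul_assoc, ← s_comm h5.2, mul_assoc, mul_assoc,
            ih fun b hb => h2 b (List.mem_cons_of_mem _ hb)]
      change len (pr c (k :: l) * s c k) < len (pr c (k :: l))
      rw [len_pr hl, pr_cons, h4, mul_s_mul_s, len_pr hl'.1]
      simp

end

end UWW
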