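import Mathlib

/-! # Right angled Coxeter groups: reduced words, length, descents

(problem MP_fc0f29_gt, negative answer; helper17)

`c` is a symmetric irreflexive relation on the letters (commuting letters). `W c` is the group generated by the letters `s k`
with the relations `s k * s k = 1`, `s i * s j = s j * s i` for `c i j`. `len w` is the word length, `Ld w`, `Rd w` are the sets of
left and right descents. -/

namespace UWW

universe u v

/-- symmetric irreflexive relations -/
class Com {α : Type u} (c : α → α → Prop) : Prop where
  symm : ∀ a b, c a b → c b a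
  irrefl : ∀ a, ¬ c a a

variable {α : Type u} (c : α → α → Prop)

/-! ### Words -/

section words

variable [DecidableEq α] [DecidableRel c]

/-- remove the letter `k` if it can be moved to the front -/
def rem (k : α) : List α → Option (List α)
  | [] => none
  | a :: l => if a = k then some l else if c a k then (rem k l).map (a :: ·) else none

/-- multiplication by `k` from the left -/
def act (k : α) (l : List α) : List α := (rem c k l).getD (k :: l)

/-- reduced words -/
def Red : List α → Prop
  | [] => True
  | k :: l => Red l ∧ rem c k l = none

end words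

/-- equality up to exchanging adjacent commuting letters -/
inductive Sw : List α → List α → Prop
  | refl (l : List α) : Sw l l
  | swap (a b : α) (l : List α) : c a b → Sw (a :: b :: l) (b :: a :: l)
  | cons (a : α) {l l' : List α} : Sw l l' → Sw (a :: l) (a :: l')
  | trans {l l' l'' : List α} : Sw l l' → Sw l' l'' → Sw l l''

variable {c}

theorem Sw.symm [h : Com c] {l l' : List α} (hl : Sw c l l') : Sw c l' l := by
  induction hl with
  | refl l => exact Sw.refl l
  | swap a b l hab => exact Sw.swap b a l (h.symm a b hab)
  | cons a _ ih => exact Sw.cons a ih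
  | trans _ _ ih1 ih2 => exact Sw.trans ih2 ih1

theorem Sw.length {l l' : List α} (hl : Sw c l l') : l.length = l'.length := by
  induction hl with
  | refl l => rfl
  | swap a b l _ => rfl
  | cons a _ ih => simp [ih]
  | trans _ _ ih1 ih2 => exact ih1.trans ih2

theorem Sw.mem {l l' : List α} (hl : Sw c l l') (x : α) : x ∈ l ↔ x ∈ l' := by
  induction hl with
  | refl l => exact Iff.rfl
  | swap a b l _ => simp only [List.mem_cons]; tauto
  | cons a _ ih => simp only [List.mem_cons, ih]
  | trans _ _ ih1 ih2 => exact ih1.trans ih2

section words

variable [DecidableEq α] [DecidableRel c]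

theorem rem_cons_self (k : α) (l : List α) : rem c k (k :: l) = some l := by
  simp [rem]

theorem rem_cons_ne {a k : α} (h : a ≠ k) (hc : c a k) (l : List α) :
    rem c k (a :: l) = (rem c k l).map (a :: ·) := by
  simp [rem, h, hc]

theorem rem_cons_none {a k : α} (h : a ≠ k) (hc : ¬ c a k) (l : List α) :
    rem c k (a :: l) = none := by
  simp [rem, h, hc]

theorem rem_sw [Com c] {k : α} {l m : List α} (h : rem c k l = some m) : Sw c l (k :: m) := by
  induction l generalizing m with
  | nil => simp [rem] at h
  | cons a l ih =>
    by_cases ha : a = k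
    · subst ha
      rw [rem_cons_self] at h
      cases h
      exact Sw.refl _
    · by_cases hc : c a k
      · rw [rem_cons_ne ha hc, Option.map_eq_some_iff] at h
        obtain ⟨m', h1, rfl⟩ := h
        exact Sw.trans (Sw.cons a (ih h1)) (Sw.swap a k m' hc)
      · rw [rem_cons_none ha hc] at h
        cases h

/-- `rem` respects the equivalence -/
theorem rem_congr [hC : Com c] {l l' : List α} (h : Sw c l l') (k : α) :
    (rem c k l = none ∧ rem c k l' = none) ∨
      ∃ m m', rem c k l = some m ∧ rem c k l' = some m' ∧ Sw c m m' := by
  induction h with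
  | refl l =>
    rcases h : rem c k l with _ | m
    · exact Or.inl ⟨rfl, rfl⟩
    · exact Or.inr ⟨m, m, rfl, rfl, Sw.refl m⟩
  | swap a b l hab =>
    have hne : a ≠ b := by
      rintro rfl
      exact hC.irrefl _ hab
    by_cases ha : a = k
    · subst ha
      refine Or.inr ⟨b :: l, b :: l, rem_cons_self _ _, ?_, Sw.refl _⟩
      rw [rem_cons_ne (Ne.symm hne) (hC.symm _ _ hab), rem_cons_self]
      rfl
    · by_cases hb : b = k
      · subst hb
        refine Or.inr ⟨a :: l, a :: l, ?_, rem_cons_self _ _, Sw.refl _⟩
        rw [rem_cons_ne ha hab, rem_cons_self]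
        rfl
      · by_cases hca : c a k
        · by_cases hcb : c b k
          · rw [rem_cons_ne ha hca, rem_cons_ne hb hcb, rem_cons_ne hb hcb, rem_cons_ne ha hca]
            rcases rem c k l with _ | m
            · exact Or.inl ⟨rfl, rfl⟩
            · exact Or.inr ⟨a :: b :: m, b :: a :: m, rfl, rfl, Sw.swap a b m hab⟩
          · rw [rem_cons_ne ha hca, rem_cons_none hb hcb, rem_cons_none hb hcb]
            exact Or.inl ⟨rfl, rfl⟩
        · by_cases hcb : c b k
          · rw [rem_cons_none ha hca, rem_cons_ne hb hcb, rem_cons_none ha hca]
            exact Or.inl ⟨rfl, rfl⟩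
          · rw [rem_cons_none ha hca, rem_cons_none hb hcb]
            exact Or.inl ⟨rfl, rfl⟩
  | cons a h ih =>
    rename_i l l'
    by_cases ha : a = k
    · subst ha
      exact Or.inr ⟨l, l', rem_cons_self _ _, rem_cons_self _ _, h⟩
    · by_cases hc : c a k
      · rw [rem_cons_ne ha hc, rem_cons_ne ha hc]
        rcases ih with ⟨h1, h2⟩ | ⟨m, m', h1, h2, h3⟩
        · rw [h1, h2]
          exact Or.inl ⟨rfl, rfl⟩
        · rw [h1, h2]
          exact Or.inr ⟨a :: m, a :: m', rfl, rfl, Sw.cons a h3⟩
      · rw [rem_cons_none ha hc, rem_cons_none ha hc]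
        exact Or.inl ⟨rfl, rfl⟩
  | trans h1 h2 ih1 ih2 =>
    rcases ih1 with ⟨h3, h4⟩ | ⟨m, m', h3, h4, h5⟩
    · rcases ih2 with ⟨h6, h7⟩ | ⟨m, m', h6, -, -⟩
      · exact Or.inl ⟨h3, h7⟩
      · rw [h4] at h6
        cases h6
    · rcases ih2 with ⟨h6, -⟩ | ⟨n, n', h6, h7, h8⟩
      · rw [h4] at h6
        cases h6
      · rw [h4] at h6
        cases h6
        exact Or.inr ⟨m, n', h3, h7, Sw.trans h5 h8⟩

theorem rem_none_congr [hC : Com c] {l l' : List α} (h : Sw c l l') (k : α) :
    rem c k l = none ↔ rem c k l' = none := by
  rcases rem_congr h k with ⟨h1, h2⟩ | ⟨m, m', h1, h2, -⟩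
  · simp [h1, h2]
  · simp [h1, h2]

theorem act_congr [hC : Com c] {l l' : List α} (h : Sw c l l') (k : α) :
    Sw c (act c k l) (act c k l') := by
  unfold act
  rcases rem_congr h k with ⟨h1, h2⟩ | ⟨m, m', h1, h2, h3⟩
  · rw [h1, h2]
    exact Sw.cons k h
  · rw [h1, h2]
    exact h3

theorem red_congr [hC : Com c] {l l' : List α} (h : Sw c l l') : Red c l ↔ Red c l' := by
  induction h with
  | refl l => exact Iff.rfl
  | swap a b l hab =>
    have hne : a ≠ b := by
      rintro rfl
      exact hC.irrefl _ hab
    simp only [Red]
    rw [rem_cons_ne (Ne.symm hne) (hC.symm _ _ hab), rem_cons_ne hne hab]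
    simp only [Option.map_eq_none_iff]
    tauto
  | cons a h ih =>
    simp only [Red]
    rw [ih, rem_none_congr h]
  | trans _ _ ih1 ih2 => exact ih1.trans ih2

theorem rem_red [hC : Com c] {k : α} {l m : List α} (hl : Red c l) (h : rem c k l = some m) :
    Red c m ∧ rem c k m = none :=
  (red_congr (rem_sw h)).1 hl

theorem act_red [hC : Com c] {k : α} {l : List α} (hl : Red c l) : Red c (act c k l) := by
  unfold act
  rcases h : rem c k l with _ | m
  · exact ⟨hl, h⟩
  · exact (rem_red hl h).1

theorem act_act [hC : Com c] {k : α} {l : List α} (hl : Red c l) :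
    Sw c (act c k (act c k l)) l := by
  rcases h : rem c k l with _ | m
  · have h1 : act c k l = k :: l := by simp [act, h]
    rw [h1]
    have h2 : act c k (k :: l) = l := by simp [act, rem_cons_self]
    rw [h2]
    exact Sw.refl l
  · have h1 : act c k l = m := by simp [act, h]
    have h2 : act c k m = k :: m := by simp [act, (rem_red hl h).2]
    rw [h1, h2]
    exact (rem_sw h).symm

theorem act_comm [hC : Com c] {i j : α} (hij : c i j) {l : List α} :
    Sw c (act c i (act c j l)) (act c j (act c i l)) := by
  have hne : i ≠ j := by
    rintro rfl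
    exact hC.irrefl _ hij
  have hji := hC.symm _ _ hij
  rcases h : rem c i l with _ | m
  · have h1 : act c i l = i :: l := by simp [act, h]
    rcases h' : rem c j l with _ | m'
    · have h2 : act c j l = j :: l := by simp [act, h']
      have h3 : act c i (j :: l) = i :: j :: l := by
        simp [act, rem_cons_ne (Ne.symm hne) hji, h]
      have h4 : act c j (i :: l) = j :: i :: l := by
        simp [act, rem_cons_ne hne hij, h']
      rw [h1, h2, h3, h4]
      exact Sw.swap i j l hij
    · have h2 : act c j l = m' := by simp [act, h']
      have h5 : rem c i m' = none := by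
        have h6 := (rem_none_congr (rem_sw h') i).1 h
        rw [rem_cons_ne (Ne.symm hne) hji, Option.map_eq_none_iff] at h6
        exact h6
      have h3 : act c i m' = i :: m' := by simp [act, h5]
      have h4 : act c j (i :: l) = i :: m' := by
        simp [act, rem_cons_ne hne hij, h']
      rw [h1, h2, h3, h4]
      exact Sw.refl _
  · have h1 : act c i l = m := by simp [act, h]
    rcases h' : rem c j l with _ | m'
    · have h2 : act c j l = j :: l := by simp [act, h']
      have h5 : rem c j m = none := by
        have h6 := (rem_none_congr (rem_sw h) j).1 h'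
        rw [rem_cons_ne hne hij, Option.map_eq_none_iff] at h6
        exact h6
      have h3 : act c j m = j :: m := by simp [act, h5]
      have h4 : act c i (j :: l) = j :: m := by
        simp [act, rem_cons_ne (Ne.symm hne) hji, h]
      rw [h1, h2, h3, h4]
      exact Sw.refl _
    · have h2 : act c j l = m' := by simp [act, h']
      rw [h1, h2]
      -- `l ~ i :: m`, so `rem j (i :: m) = some (i :: n)` with `i :: n ~ m'`
      rcases rem_congr (rem_sw h) j with ⟨h6, -⟩ | ⟨n, n', h6, h7, h8⟩
      · rw [h'] at h6
        cases h6
      · rw [h'] at h6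
        cases h6
        rw [rem_cons_ne hne hij, Option.map_eq_some_iff] at h7
        obtain ⟨n, h7, rfl⟩ := h7
        -- h8 : m' ~ i :: n, h7 : rem j m = some n
        have h9 : act c j m = n := by simp [act, h7]
        rw [h9]
        have h10 := act_congr h8 i
        have h11 : act c i (i :: n) = n := by simp [act, rem_cons_self]
        rw [h11] at h10
        exact h10

theorem act_length (k : α) (l : List α) :
    (rem c k l = none ∧ (act c k l).length = l.length + 1) ∨
      (rem c k l ≠ none ∧ (act c k l).length + 1 = l.length) := by
  rcases h : rem c k l with _ | m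
  · left
    exact ⟨rfl, by simp [act, h]⟩
  · right
    refine ⟨by simp, ?_⟩
    have h1 : act c k l = m := by simp [act, h]
    rw [h1]
    clear h1
    induction l generalizing m with
    | nil => simp [rem] at h
    | cons a l ih =>
      by_cases ha : a = k
      · subst ha
        rw [rem_cons_self] at h
        cases h
        rfl
      · by_cases hc : c a k
        · rw [rem_cons_ne ha hc, Option.map_eq_some_iff] at h
          obtain ⟨m', h1, rfl⟩ := h
          simp [ih _ h1]
        · rw [rem_cons_none ha hc] at h
          cases h

/-- removing a letter from a product -/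
theorem rem_append (k : α) (l m : List α) (h : rem c k l = none) :
    rem c k (l ++ m) ≠ none ↔ (∀ a ∈ l, a ≠ k ∧ c a k) ∧ rem c k m ≠ none := by
  induction l with
  | nil => simp
  | cons a l ih =>
    by_cases ha : a = k
    · subst ha
      rw [rem_cons_self] at h
      cases h
    · by_cases hc : c a k
      · rw [rem_cons_ne ha hc, Option.map_eq_none_iff] at h
        rw [List.cons_append, rem_cons_ne ha hc, Ne, Option.map_eq_none_iff]
        rw [← Ne, ih h]
        simp [ha, hc]
      · rw [List.cons_append, rem_cons_none ha hc]
        simp [hc]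

theorem rem_append_some {k : α} {l : List α} (m : List α) (h : rem c k l ≠ none) :
    rem c k (l ++ m) ≠ none := by
  induction l with
  | nil => simp [rem] at h
  | cons a l ih =>
    by_cases ha : a = k
    · subst ha
      rw [List.cons_append, rem_cons_self]
      simp
    · by_cases hc : c a k
      · rw [rem_cons_ne ha hc, Ne, Option.map_eq_none_iff] at h
        rw [List.cons_append, rem_cons_ne ha hc, Ne, Option.map_eq_none_iff]
        exact ih h
      · rw [rem_cons_none ha hc] at h
        exact absurd rfl h

theorem rem_mem {k : α} {l : List α} (h : rem c k l ≠ none) : k ∈ l := by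
  induction l with
  | nil => simp [rem] at h
  | cons a l ih =>
    by_cases ha : a = k
    · simp [ha]
    · by_cases hc : c a k
      · rw [rem_cons_ne ha hc, Ne, Option.map_eq_none_iff] at h
        exact List.mem_cons_of_mem _ (ih h)
      · rw [rem_cons_none ha hc] at h
        exact absurd rfl h

theorem rem_two {i j : α} (hij : i ≠ j) {l : List α} (h : rem c i l ≠ none) (h' : rem c j l ≠ none) :
    c i j ∨ c j i := by
  induction l with
  | nil => simp [rem] at h
  | cons a l ih =>
    by_cases ha : a = i
    · subst ha
      by_cases hc : c a j
      · exact Or.inl hc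
      · rw [rem_cons_none hij hc] at h'
        exact absurd rfl h'
    · by_cases hb : a = j
      · subst hb
        by_cases hc : c a i
        · exact Or.inr hc
        · rw [rem_cons_none ha hc] at h
          exact absurd rfl h
      · by_cases hc : c a i
        · by_cases hc' : c a j
          · rw [rem_cons_ne ha hc, Ne, Option.map_eq_none_iff] at h
            rw [rem_cons_ne hb hc', Ne, Option.map_eq_none_iff] at h'
            exact ih h h'
          · rw [rem_cons_none hb hc'] at h'
            exact absurd rfl h'
        · rw [rem_cons_none ha hc] at h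
          exact absurd rfl h

end words

end UWW
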